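import Pool.Agent.R677.SubN.Grp

set_option autoImplicit false
open CategoryTheory

namespace Pool.Agent.R677.SubN
open Pool.Agent.W367.SN Pool.Agent.Helper199.RepDim

/-- transport of irreducible characters along an isomorphism -/
theorem irr_transport {Γ Γ' : Type} [Group Γ] [Group Γ'] [Finite Γ] [Finite Γ'] (e : Γ ≃* Γ')
    (V : FDRep ℂ Γ') (hV : Simple V) :
    ∃ W : FDRep ℂ Γ, Simple W ∧ W.character = fun g => V.character (e g) := by
  classical
  have := Fintype.ofFinite Γ
  have := Fintype.ofFinite Γ'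
  have h1 : ∀ g, (FDRep.of (V.ρ.comp e.toMonoidHom)).character g = V.character (e g) :=
    fun g => rfl
  refine ⟨FDRep.of (V.ρ.comp e.toMonoidHom), ?_, funext h1⟩
  rw [FDRep.simple_iff_char_is_norm_one]
  have h2 := (FDRep.simple_iff_char_is_norm_one V).1 hV
  simp only [h1, map_inv]
  rw [Nat.card_congr e.toEquiv, ← h2]
  exact Equiv.sum_comp e.toEquiv (fun g => V.character g * V.character g⁻¹)

theorem SS_of_top (p : ℕ) {G : Type} [Group G] [Finite G] (y : G) (h : subGrp y = ⊤) :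
    SS p y := by
  let e : subGrp y ≃* G := (MulEquiv.subgroupCongr h).trans Subgroup.topEquiv
  have he : ∀ z : subGrp y, e z = (z : G) := fun z => rfl
  have hes : ∀ g : G, ((e.symm g : subGrp y) : G) = g := by
    intro g
    have := e.apply_symm_apply g
    rwa [he] at this
  let f : IrrNV G y ≃ IrrNV (subGrp y) ⟨y, self_mem y⟩ :=
    { toFun := fun χ => ⟨fun z => χ.1 (z : G), by
        obtain ⟨⟨V, hV, hχ⟩, h0⟩ := χ.2
        refine ⟨?_, h0⟩
        obtain ⟨W, hW, hW'⟩ := irr_transport e V hV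
        refine ⟨W, hW, ?_⟩
        rw [hW', ← hχ]
        rfl⟩
      invFun := fun ψ => ⟨fun g => ψ.1 (e.symm g), by
        obtain ⟨⟨V, hV, hψ⟩, h0⟩ := ψ.2
        constructor
        · obtain ⟨W, hW, hW'⟩ := irr_transport e.symm V hV
          refine ⟨W, hW, ?_⟩
          rw [hW', ← hψ]
        · have : e.symm y = ⟨y, self_mem y⟩ := Subtype.ext (hes y)
          change ψ.1 (e.symm y) ≠ 0
          rw [this]; exact h0⟩
      left_inv := by
        intro χ
        apply Subtype.ext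
        funext g
        change χ.1 ((e.symm g : subGrp y) : G) = χ.1 g
        rw [hes]
      right_inv := by
        intro ψ
        apply Subtype.ext
        funext z
        change ψ.1 (e.symm (z : G)) = ψ.1 z
        congr 1 }
  refine ⟨f, ?_⟩
  intro χ
  refine ⟨?_, Or.inl rfl⟩
  obtain ⟨⟨V, hV, hχ⟩, h0⟩ := χ.2
  have h1 : χ.1 1 = (Module.finrank ℂ V : ℕ) := by
    rw [← hχ]; exact V.char_one
  exact ⟨Module.finrank ℂ V, Module.finrank ℂ V, h1, h1, rfl⟩

/-- linear characters are irreducible -/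
theorem lin_mem {Γ : Type} [Group Γ] [Fintype Γ] (f : Γ →* ℂ) : (fun g => f g) ∈ IrrC Γ := by
  classical
  let ρ : Γ →* Matrix (Fin 1) (Fin 1) ℂ :=
    { toFun := fun g => f g • 1
      map_one' := by simp
      map_mul' := fun a b => by simp [smul_smul, mul_comm] }
  have hρ : ∀ g, (ρ g).trace = f g := by
    intro g
    change (f g • (1 : Matrix (Fin 1) (Fin 1) ℂ)).trace = f g
    simp
  have := mem_irr_of_matrix ρ (by
    simp only [hρ]
    have h1 : ∀ g, f g * f g⁻¹ = 1 := by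
      intro g; rw [← map_mul, mul_inv_cancel, map_one]
    rw [Finset.sum_congr rfl (fun g _ => h1 g)]
    simp)
  simpa only [hρ] using this

/-- the linear character of the dihedral group that is `-1` on the generating rotation and `1`
on the first reflection -/
def lamFun : D → ℂ
  | .r i => if i.val % 2 = 0 then 1 else -1
  | .sr i => if i.val % 2 = 0 then 1 else -1

def lamInt : D → ℤ
  | .r i => if i.val % 2 = 0 then 1 else -1
  | .sr i => if i.val % 2 = 0 then 1 else -1

theorem lamInt_mul : ∀ a b : D, lamInt (a * b) = lamInt a * lamInt b := by decide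

def lam : D →* ℂ where
  toFun a := (lamInt a : ℂ)
  map_one' := by
    have : lamInt 1 = 1 := by decide
    rw [this]; norm_num
  map_mul' a b := by rw [lamInt_mul]; push_cast; rfl

theorem chi_mem : ind (fun g => (1 : D →* ℂ) g) (fun g => lam g) ∈ IrrC W := by
  apply ind_mem (lin_mem _) (lin_mem _)
  intro h
  have h1 := congrFun h (DihedralGroup.r 1)
  have h2 : lamInt (DihedralGroup.r 1) = -1 := by decide
  have h3 : lam (DihedralGroup.r 1) = ((-1 : ℤ) : ℂ) := by
    change ((lamInt (DihedralGroup.r 1) : ℤ) : ℂ) = _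
    rw [h2]
  have h4 : (1 : ℂ) = ((-1 : ℤ) : ℂ) := by
    rw [← h3]; exact h1
  norm_num at h4

theorem chi_val : ind (fun g => (1 : D →* ℂ) g) (fun g => lam g) x0 = 2 := by
  have h2 : lamInt (DihedralGroup.r 2) = 1 := by decide
  have h3 : lamInt (DihedralGroup.sr 0) = 1 := by decide
  change (1 : ℂ) * ((lamInt (DihedralGroup.r 2) : ℤ) : ℂ) +
    ((lamInt (DihedralGroup.sr 0) : ℤ) : ℂ) * 1 = 2
  rw [h2, h3]
  norm_num

/-- The value bound. -/
theorem val_bound {L : Type} [Group L] [Finite L] (V : FDRep ℂ L) (hV : Simple V) (y2 y3 s : L)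
    (h2 : ∀ g, g * y2 = y2 * g) (h22 : y2 * y2 = 1) (h3 : y3 ^ 3 = 1)
    (hc : ∀ g, g * y3 = y3 * g ∨ g * y3 = y3⁻¹ * g) (hs : s * y3 * s⁻¹ = y3⁻¹)
    (hab : ∀ g h : L, ∃ k : ℕ, g * h = h * g * y3 ^ k) (H : Subgroup L) (hH : H.index ≤ 2)
    (hHz : ∀ h ∈ H, ∃ z : L, (∀ g, g * z = z * g) ∧ ∃ k : ℕ, h = z * y3 ^ k) :
    V.character (y2 * y3) ≠ 2 ∧ V.character (y2 * y3) ≠ -2 := by
  obtain ⟨v0, hv0⟩ := simple_nonzero V
  have hcen : ∀ z : L, (∀ g, g * z = z * g) → ∃ c : ℂ, ∀ v, V.ρ z v = c • v := by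
    intro z hz
    apply schur V hV
    intro g v
    rw [← Module.End.mul_apply, ← map_mul, ← hz, map_mul, Module.End.mul_apply]
  obtain ⟨c, hcv⟩ := hcen y2 h2
  have hcc : c * c = 1 := by
    have h1 : V.ρ (y2 * y2) v0 = v0 := by rw [h22, map_one]; rfl
    rw [map_mul, Module.End.mul_apply, hcv, hcv, smul_smul] at h1
    have h4 : (c * c - 1) • v0 = 0 := by rw [sub_smul, one_smul, h1, sub_self]
    exact sub_eq_zero.1 ((smul_eq_zero.1 h4).resolve_right hv0)
  have hc1 : c = 1 ∨ c = -1 := by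
    have : (c - 1) * (c + 1) = 0 := by linear_combination hcc
    rcases mul_eq_zero.1 this with h | h
    · left; linear_combination h
    · right; linear_combination h
  have htr : V.character (y2 * y3) = c * V.character y3 := by
    change LinearMap.trace ℂ V (V.ρ (y2 * y3)) = c * LinearMap.trace ℂ V (V.ρ y3)
    have h5 : V.ρ (y2 * y3) = c • V.ρ y3 := by
      apply LinearMap.ext
      intro v
      rw [map_mul, Module.End.mul_apply, hcv]
      rfl
    rw [h5, map_smul, smul_eq_mul]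
  obtain ⟨t, ht⟩ := schur V hV (V.ρ y3 + V.ρ y3⁻¹) (by
    intro g v
    simp only [LinearMap.add_apply, map_add]
    rcases hc g with h | h
    · have e1 : y3 * g = g * y3 := h.symm
      have e2 : y3⁻¹ * g = g * y3⁻¹ := by
        rw [inv_mul_eq_iff_eq_mul, ← mul_assoc, e1, mul_inv_cancel_right]
      rw [← Module.End.mul_apply, ← Module.End.mul_apply, ← Module.End.mul_apply,
        ← Module.End.mul_apply, ← map_mul, ← map_mul, ← map_mul, ← map_mul, e1, e2]
    · have e1 : y3⁻¹ * g = g * y3 := h.symm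
      have e2 : y3 * g = g * y3⁻¹ := by
        rw [eq_mul_inv_iff_mul_eq, mul_assoc, h, mul_inv_cancel_left]
      rw [← Module.End.mul_apply, ← Module.End.mul_apply, ← Module.End.mul_apply,
        ← Module.End.mul_apply, ← map_mul, ← map_mul, ← map_mul, ← map_mul, e1, e2, add_comm])
  have hTT : ∀ v, V.ρ y3 (V.ρ y3 v) = V.ρ y3⁻¹ v := by
    intro v
    rw [← Module.End.mul_apply, ← map_mul]
    congr 2
    rw [eq_inv_iff_mul_eq_one, ← h3, pow_succ, pow_two]
  have hTT' : ∀ v, V.ρ y3 (V.ρ y3⁻¹ v) = v := by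
    intro v
    rw [← Module.End.mul_apply, ← map_mul, mul_inv_cancel, map_one]; rfl
  have hmain : ∀ v, (t + 1) • (V.ρ y3 v - v) = 0 := by
    intro v
    have k1 : V.ρ y3 v + V.ρ y3⁻¹ v = t • v := ht v
    have k2 : V.ρ y3⁻¹ v + v = t • V.ρ y3 v := by
      have := congrArg (V.ρ y3) k1
      rw [map_add, hTT, hTT', map_smul] at this
      exact this
    have k3 : V.ρ y3⁻¹ v = t • v - V.ρ y3 v := by rw [← k1]; abel
    rw [k3] at k2
    rw [smul_sub, add_smul, add_smul, one_smul, one_smul, ← k2]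
    abel
  have hchar1 : ∀ w : V, w ≠ 0 → ∀ H' : Subgroup L, (∀ h ∈ H', ∃ c : ℂ, V.ρ h w = c • w) →
      Module.finrank ℂ V ≤ H'.index := fun w hw H' h => finrank_le_index V H' w hw h
  have hnt : Nontrivial V := ⟨⟨v0, 0, hv0⟩⟩
  have hpos : 0 < Module.finrank ℂ V := Module.finrank_pos
  by_cases ht1 : t + 1 = 0
  · -- the element of order three acts nontrivially
    have htr3 : V.character y3 + V.character y3⁻¹ = -(Module.finrank ℂ V : ℂ) := by
      have k1 : V.ρ y3 + V.ρ y3⁻¹ = t • LinearMap.id := LinearMap.ext ht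
      have k2 := congrArg (LinearMap.trace ℂ V) k1
      rw [map_add, map_smul, LinearMap.trace_id, smul_eq_mul] at k2
      have k3 : t = -1 := by linear_combination ht1
      rw [k3] at k2
      change LinearMap.trace ℂ V (V.ρ y3) + LinearMap.trace ℂ V (V.ρ y3⁻¹) = _
      rw [k2]; ring
    have hinv : V.character y3⁻¹ = V.character y3 := by
      rw [← hs]; exact V.char_conj y3 s
    rw [hinv] at htr3
    obtain ⟨m, hm⟩ := Module.End.exists_eigenvalue (V.ρ y3)
    obtain ⟨w, hw⟩ := hm.exists_hasEigenvector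
    have hw0 : w ≠ 0 := hw.2
    have hwm : V.ρ y3 w = m • w := hw.apply_eq_smul
    have hwk : ∀ k : ℕ, V.ρ (y3 ^ k) w = m ^ k • w := by
      intro k
      induction k with
      | zero => rw [pow_zero, pow_zero, map_one, one_smul]; rfl
      | succ k ih =>
        rw [pow_succ, map_mul, Module.End.mul_apply, hwm, map_smul, ih, smul_smul, pow_succ,
          mul_comm]
    have hd := hchar1 w hw0 H (by
      intro h hh
      obtain ⟨z, hz, k, rfl⟩ := hHz h hh
      obtain ⟨c', hc'⟩ := hcen z hz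
      refine ⟨m ^ k * c', ?_⟩
      rw [map_mul, Module.End.mul_apply, hwk, map_smul, hc', smul_smul])
    have hd2 : Module.finrank ℂ V ≤ 2 := hd.trans hH
    rw [htr]
    have hfin : (Module.finrank ℂ V : ℂ) ≠ 4 := by
      have : Module.finrank ℂ V ≠ 4 := by omega
      exact_mod_cast this
    have hfin' : (Module.finrank ℂ V : ℂ) ≠ -4 := by
      intro h
      have h1 : ((Module.finrank ℂ V + 4 : ℕ) : ℂ) = 0 := by push_cast; rw [h]; norm_num
      have h2 : Module.finrank ℂ V + 4 = 0 := by exact_mod_cast h1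
      omega
    rcases hc1 with rfl | rfl
    · constructor
      · intro h
        apply hfin'
        linear_combination htr3 - 2 * h
      · intro h
        apply hfin
        linear_combination htr3 - 2 * h
    · constructor
      · intro h
        apply hfin
        linear_combination htr3 + 2 * h
      · intro h
        apply hfin'
        linear_combination htr3 + 2 * h
  · -- the element of order three acts trivially
    have hT : ∀ v, V.ρ y3 v = v := by
      intro v
      exact sub_eq_zero.1 ((smul_eq_zero.1 (hmain v)).resolve_left ht1)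
    have hTk : ∀ (k : ℕ) v, V.ρ (y3 ^ k) v = v := by
      intro k v
      induction k with
      | zero => rw [pow_zero, map_one]; rfl
      | succ k ih => rw [pow_succ, map_mul, Module.End.mul_apply, hT, ih]
    have hscal : ∀ g : L, ∃ c : ℂ, ∀ v, V.ρ g v = c • v := by
      intro g
      apply schur V hV
      intro h v
      obtain ⟨k, hk⟩ := hab g h
      rw [← Module.End.mul_apply, ← map_mul, hk, map_mul, Module.End.mul_apply, hTk, map_mul,
        Module.End.mul_apply]
    have hd := hchar1 v0 hv0 ⊤ (by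
      intro h _
      obtain ⟨c', hc'⟩ := hscal h
      exact ⟨c', hc' v0⟩)
    rw [Subgroup.index_top] at hd
    have hd1 : Module.finrank ℂ V = 1 := by omega
    have h6 : V.character y3 = 1 := by
      change LinearMap.trace ℂ V (V.ρ y3) = 1
      have : V.ρ y3 = LinearMap.id := LinearMap.ext hT
      rw [this, LinearMap.trace_id, hd1, Nat.cast_one]
    rw [htr, h6]
    rcases hc1 with rfl | rfl <;> constructor <;> norm_num

theorem centK (z : W) (hz : z = x2 ∨ ∃ a : D, a ∈ ({1, DihedralGroup.sr 0, DihedralGroup.r 3,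
    DihedralGroup.sr 3} : Finset D) ∧ (z = ⟨a, 1, false⟩ ∨ z = ⟨a, DihedralGroup.r 3, false⟩))
    (g : W) (hg : g ∈ K) : g * z = z * g := by
  rcases g with ⟨c, d, e⟩
  obtain ⟨he, hc⟩ := hg
  change e = false at he
  change c * DihedralGroup.sr 0 = DihedralGroup.sr 0 * c at hc
  subst he
  have k1 : ∀ c : D, c * DihedralGroup.sr 0 = DihedralGroup.sr 0 * c →
      ∀ a ∈ ({1, DihedralGroup.sr 0, DihedralGroup.r 3, DihedralGroup.sr 3} : Finset D),
      c * a = a * c := by decide
  have k2 : ∀ d : D, d * DihedralGroup.r 3 = DihedralGroup.r 3 * d := by decide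
  rcases hz with rfl | ⟨a, ha, rfl | rfl⟩
  · simp only [x2, Wr.mul_ff, hc, mul_one, one_mul]
  · simp only [Wr.mul_ff, k1 c hc a ha, mul_one, one_mul]
  · simp only [Wr.mul_ff, k1 c hc a ha, k2]

/-- the sign homomorphism on the second coordinate -/
def sgnInt : D → ℤˣ
  | .r _ => 1
  | .sr _ => -1

theorem sgnInt_mul : ∀ a b : D, sgnInt (a * b) = sgnInt a * sgnInt b := by decide

def sgnK : K →* ℤˣ where
  toFun w := sgnInt (w : W).b
  map_one' := rfl
  map_mul' := by
    rintro ⟨⟨a, b, e⟩, he, ha⟩ ⟨⟨c, d, f⟩, hf, hc⟩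
    change e = false at he
    change f = false at hf
    subst he hf
    exact sgnInt_mul b d

theorem bound_K (V : FDRep ℂ K) (hV : Simple V) :
    V.character ⟨x0, x0_mem_K⟩ ≠ 2 ∧ V.character ⟨x0, x0_mem_K⟩ ≠ -2 := by
  have m2 : x2 ∈ K := ⟨rfl, by decide⟩
  have m3 : x3 ∈ K := ⟨rfl, by decide⟩
  have ms : (⟨1, DihedralGroup.sr 0, false⟩ : W) ∈ K := ⟨rfl, by decide⟩
  have e1 : x0 = x2 * x3 := by decide
  have e2 : x2 * x2 = 1 := by decide
  have e3 : x3 ^ 3 = 1 := by decide
  have e4 : (⟨1, DihedralGroup.sr 0, false⟩ : W) * x3 *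
      (⟨1, DihedralGroup.sr 0, false⟩ : W)⁻¹ = x3⁻¹ := by decide
  have hx : (⟨x0, x0_mem_K⟩ : K) = ⟨x2, m2⟩ * ⟨x3, m3⟩ := Subtype.ext e1
  rw [hx]
  apply val_bound V hV ⟨x2, m2⟩ ⟨x3, m3⟩ ⟨_, ms⟩ (H := sgnK.ker)
  · rintro ⟨g, hg⟩
    exact Subtype.ext (centK x2 (Or.inl rfl) g hg)
  · exact Subtype.ext e2
  · exact Subtype.ext e3
  · rintro ⟨⟨c, d, e⟩, he, hc⟩
    change e = false at he
    subst he
    have k : ∀ d : D, d * DihedralGroup.r 2 = DihedralGroup.r 2 * d ∨
        d * DihedralGroup.r 2 = (DihedralGroup.r 2)⁻¹ * d := by decide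
    rcases k d with k | k
    · left
      apply Subtype.ext
      change (⟨c, d, false⟩ : W) * ⟨1, DihedralGroup.r 2, false⟩ =
        ⟨1, DihedralGroup.r 2, false⟩ * ⟨c, d, false⟩
      rw [Wr.mul_ff, Wr.mul_ff, k, mul_one, one_mul]
    · right
      apply Subtype.ext
      change (⟨c, d, false⟩ : W) * ⟨1, DihedralGroup.r 2, false⟩ =
        (⟨1, DihedralGroup.r 2, false⟩ : W)⁻¹ * ⟨c, d, false⟩
      rw [Wr.inv_ff, Wr.mul_ff, Wr.mul_ff, k, mul_one, inv_one, one_mul]
  · exact Subtype.ext e4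
  · rintro ⟨⟨c, d, e⟩, he, hc⟩ ⟨⟨c', d', e'⟩, he', hc'⟩
    change e = false at he
    change e' = false at he'
    change c * DihedralGroup.sr 0 = DihedralGroup.sr 0 * c at hc
    change c' * DihedralGroup.sr 0 = DihedralGroup.sr 0 * c' at hc'
    subst he he'
    have k1 : ∀ c : D, c * DihedralGroup.sr 0 = DihedralGroup.sr 0 * c → ∀ c' : D,
      c' * DihedralGroup.sr 0 = DihedralGroup.sr 0 * c' → c * c' = c' * c := by decide
    have k2 : ∀ d d' : D, d * d' = d' * d * (DihedralGroup.r 2) ^ 0 ∨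
        d * d' = d' * d * (DihedralGroup.r 2) ^ 1 ∨
        d * d' = d' * d * (DihedralGroup.r 2) ^ 2 := by decide
    have k3 : ∀ k : ℕ, (⟨1, DihedralGroup.r 2, false⟩ : W) ^ k =
        ⟨1, (DihedralGroup.r 2) ^ k, false⟩ := by
      intro k
      induction k with
      | zero => rfl
      | succ k ih => rw [pow_succ, ih, Wr.mul_ff, pow_succ, mul_one]
    have key : ∀ k : ℕ, d * d' = d' * d * (DihedralGroup.r 2) ^ k →
        (⟨⟨c, d, false⟩, rfl, hc⟩ : K) * ⟨⟨c', d', false⟩, rfl, hc'⟩ =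
        ⟨⟨c', d', false⟩, rfl, hc'⟩ * ⟨⟨c, d, false⟩, rfl, hc⟩ * ⟨x3, m3⟩ ^ k := by
      intro k hk
      apply Subtype.ext
      change (⟨c, d, false⟩ : W) * ⟨c', d', false⟩ = ⟨c', d', false⟩ * ⟨c, d, false⟩ *
        (⟨1, DihedralGroup.r 2, false⟩ : W) ^ k
      rw [k3, Wr.mul_ff, Wr.mul_ff, Wr.mul_ff, hk, k1 c hc c' hc', mul_one]
    rcases k2 d d' with k | k | k
    · exact ⟨0, key 0 k⟩
    · exact ⟨1, key 1 k⟩
    · exact ⟨2, key 2 k⟩
  · rw [Subgroup.index_ker]
    calc Nat.card sgnK.range ≤ Nat.card ℤˣ := Nat.card_le_card_of_injective _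
          (Subtype.val_injective)
      _ = 2 := by rw [Nat.card_eq_fintype_card]; rfl
  · rintro ⟨⟨c, d, e⟩, he, hc⟩ hh
    change e = false at he
    change c * DihedralGroup.sr 0 = DihedralGroup.sr 0 * c at hc
    subst he
    have hd : sgnInt d = 1 := hh
    have k1 : ∀ c : D, c * DihedralGroup.sr 0 = DihedralGroup.sr 0 * c →
      c ∈ ({1, DihedralGroup.sr 0, DihedralGroup.r 3, DihedralGroup.sr 3} : Finset D) := by
      decide
    have k2 : ∀ d : D, sgnInt d = 1 →
        ((d = 1 * (DihedralGroup.r 2) ^ 0 ∨ d = 1 * (DihedralGroup.r 2) ^ 1 ∨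
          d = 1 * (DihedralGroup.r 2) ^ 2) ∨
        (d = DihedralGroup.r 3 * (DihedralGroup.r 2) ^ 0 ∨
          d = DihedralGroup.r 3 * (DihedralGroup.r 2) ^ 1 ∨
          d = DihedralGroup.r 3 * (DihedralGroup.r 2) ^ 2)) := by decide
    have k3 : ∀ k : ℕ, (⟨1, DihedralGroup.r 2, false⟩ : W) ^ k =
        ⟨1, (DihedralGroup.r 2) ^ k, false⟩ := by
      intro k
      induction k with
      | zero => rfl
      | succ k ih => rw [pow_succ, ih, Wr.mul_ff, pow_succ, mul_one]
    have hc1 := k1 c hc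
    have m1 : (⟨c, 1, false⟩ : W) ∈ K := ⟨rfl, hc⟩
    have m3' : (⟨c, DihedralGroup.r 3, false⟩ : W) ∈ K := ⟨rfl, hc⟩
    have key1 : ∀ k : ℕ, d = 1 * (DihedralGroup.r 2) ^ k →
        (⟨⟨c, d, false⟩, rfl, hc⟩ : K) = ⟨⟨c, 1, false⟩, m1⟩ * ⟨x3, m3⟩ ^ k := by
      intro k hk
      apply Subtype.ext
      change (⟨c, d, false⟩ : W) = ⟨c, 1, false⟩ * (⟨1, DihedralGroup.r 2, false⟩ : W) ^ k
      rw [k3, Wr.mul_ff, ← hk, mul_one]
    have key2 : ∀ k : ℕ, d = DihedralGroup.r 3 * (DihedralGroup.r 2) ^ k →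
        (⟨⟨c, d, false⟩, rfl, hc⟩ : K) = ⟨⟨c, DihedralGroup.r 3, false⟩, m3'⟩ * ⟨x3, m3⟩ ^ k := by
      intro k hk
      apply Subtype.ext
      change (⟨c, d, false⟩ : W) = ⟨c, DihedralGroup.r 3, false⟩ *
        (⟨1, DihedralGroup.r 2, false⟩ : W) ^ k
      rw [k3, Wr.mul_ff, ← hk, mul_one]
    rcases k2 d hd with h | h
    · refine ⟨⟨⟨c, 1, false⟩, m1⟩, ?_, ?_⟩
      · rintro ⟨g, hg⟩
        exact Subtype.ext (centK _ (Or.inr ⟨c, hc1, Or.inl rfl⟩) g hg)
      · rcases h with h | h | h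
        · exact ⟨0, key1 0 h⟩
        · exact ⟨1, key1 1 h⟩
        · exact ⟨2, key1 2 h⟩
    · refine ⟨⟨⟨c, DihedralGroup.r 3, false⟩, m3'⟩, ?_, ?_⟩
      · rintro ⟨g, hg⟩
        exact Subtype.ext (centK _ (Or.inr ⟨c, hc1, Or.inr rfl⟩) g hg)
      · rcases h with h | h | h
        · exact ⟨0, key2 0 h⟩
        · exact ⟨1, key2 1 h⟩
        · exact ⟨2, key2 2 h⟩

theorem bound_of_eq (L : Subgroup W) (hL : L = K) (V : FDRep ℂ L) (hV : Simple V) (z : L)
    (hz : (z : W) = x0) : V.character z ≠ 2 ∧ V.character z ≠ -2 := by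
  subst hL
  have : z = ⟨x0, x0_mem_K⟩ := Subtype.ext hz
  rw [this]
  exact bound_K V hV

end Pool.Agent.R677.SubN
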