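import Mathlib

set_option autoImplicit false

namespace Pool.Agent.R677.SubN

/-- The subnormalizer set of `x`: all `g` such that `⟨x⟩` is subnormal in `⟨x, g⟩`. -/
def subSet {G : Type} [Group G] (x : G) : Set G :=
  {g | ((Subgroup.zpowers x).subgroupOf
    (Subgroup.zpowers x ⊔ Subgroup.zpowers g)).IsSubnormal}

/-- The subnormalizer subgroup of `x`: the subgroup generated by the subnormalizer set. -/
def subGrp {G : Type} [Group G] (x : G) : Subgroup G := Subgroup.closure (subSet x)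

/-- `x` lies in its subnormalizer subgroup. -/
theorem self_mem {G : Type} [Group G] (x : G) : x ∈ subGrp x := by
  apply Subgroup.subset_closure
  change ((Subgroup.zpowers x).subgroupOf
    (Subgroup.zpowers x ⊔ Subgroup.zpowers x)).IsSubnormal
  rw [sup_idem, Subgroup.subgroupOf_self]
  exact Subgroup.IsSubnormal.top

/-- The irreducible complex characters of `G` that do not vanish at `x`. -/
abbrev IrrNV (G : Type) [Group G] (x : G) : Type :=
  {χ : G → ℂ // (∃ V : FDRep ℂ G, CategoryTheory.Simple V ∧ V.character = χ) ∧ χ x ≠ 0}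

/-- `y` is the `p`-part of `x`. -/
def IsPart {G : Type} [Group G] (p : ℕ) (x y : G) : Prop :=
  y ∈ Subgroup.zpowers x ∧ (∃ k : ℕ, y ^ p ^ k = 1) ∧ ¬ p ∣ orderOf (x * y⁻¹)

/-- The degrees of `χ` and `ψ` are natural numbers with the same `p`-part. -/
def SameDegPart (p : ℕ) {G H : Type} [Group G] [Group H] (χ : G → ℂ) (ψ : H → ℂ) : Prop :=
  ∃ n m : ℕ, χ 1 = n ∧ ψ 1 = m ∧ padicValNat p n = padicValNat p m

/-- Property (SS) for the prime `p` and the element `y`. -/
def SS (p : ℕ) {G : Type} [Group G] (y : G) : Prop :=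
  ∃ f : IrrNV G y ≃ IrrNV (subGrp y) ⟨y, self_mem y⟩, ∀ χ : IrrNV G y,
    SameDegPart p χ.1 (f χ).1 ∧
      ((f χ).1 ⟨y, self_mem y⟩ = χ.1 y ∨ (f χ).1 ⟨y, self_mem y⟩ = -χ.1 y)

end Pool.Agent.R677.SubN
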