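import Pool.Agent.R677.SubN.Defs
import Pool.Agent.W367.SN.Wr

set_option autoImplicit false

namespace Pool.Agent.R677.SubN
open Pool.Agent.W367.SN

section gen
variable {G : Type} [Group G]

/-- a criterion for membership in the subnormalizer set -/
theorem mem_subSet_of (y g : G) (B T : Subgroup G) (hB : B.Normal) (hyB : y ∈ B)
    (hyT : y ∈ T) (hgT : g ∈ T) (hc : ∀ b ∈ B, b ∈ T → b * y * b⁻¹ ∈ Subgroup.zpowers y) :
    g ∈ subSet y := by
  change ((Subgroup.zpowers y).subgroupOf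
    (Subgroup.zpowers y ⊔ Subgroup.zpowers g)).IsSubnormal
  set H := Subgroup.zpowers y ⊔ Subgroup.zpowers g with hH
  have hHT : H ≤ T := by
    rw [hH, sup_le_iff, Subgroup.zpowers_le, Subgroup.zpowers_le]
    exact ⟨hyT, hgT⟩
  have hyH : Subgroup.zpowers y ≤ H := le_sup_left
  have hyB' : Subgroup.zpowers y ≤ B := by rwa [Subgroup.zpowers_le]
  apply Subgroup.IsSubnormal.step _ (B.subgroupOf H)
  · intro z hz
    rw [Subgroup.mem_subgroupOf] at hz ⊢
    exact hyB' hz
  · exact Subgroup.Normal.isSubnormal inferInstance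
  · constructor
    rintro ⟨n, hn⟩ hn' ⟨b, hb⟩
    rw [Subgroup.mem_subgroupOf, Subgroup.mem_subgroupOf] at hn' ⊢
    rw [Subgroup.mem_subgroupOf] at hb
    obtain ⟨k, hk⟩ := hn'
    have h1 := hc (b : G) hb (hHT b.2)
    have h2 : ((b * n * b⁻¹ : H) : G) = ((b : G) * y * (b : G)⁻¹) ^ k := by
      have h3 : (n : G) = y ^ k := hk.symm
      rw [Subgroup.coe_mul, Subgroup.coe_mul, Subgroup.coe_inv, h3, conj_zpow]
    change ((b * n * b⁻¹ : H) : G) ∈ Subgroup.zpowers y
    rw [h2]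
    exact Subgroup.zpow_mem _ h1 k

/-- normalizing elements are in the subnormalizer set -/
theorem mem_subSet_of_norm (y g : G) (hc : g * y * g⁻¹ ∈ Subgroup.zpowers y)
    (hc' : g⁻¹ * y * g ∈ Subgroup.zpowers y) : g ∈ subSet y := by
  apply mem_subSet_of y g ⊤ (Subgroup.normalizer (Subgroup.zpowers y : Set G))
    inferInstance trivial
  · exact Subgroup.le_normalizer (Subgroup.mem_zpowers y)
  · rw [Subgroup.mem_normalizer_iff]
    intro h
    constructor
    · rintro ⟨k, rfl⟩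
      change g * (y ^ k) * g⁻¹ ∈ _
      rw [← conj_zpow]
      exact Subgroup.zpow_mem _ hc k
    · rintro ⟨k, hk⟩
      have h1 : h = (g⁻¹ * y * g) ^ k := by
        have h2 : h = g⁻¹ * (g * h * g⁻¹) * g := by group
        rw [h2]
        have h3 : y ^ k = g * h * g⁻¹ := hk
        rw [← h3]
        have := conj_zpow (i := k) (a := g⁻¹) (b := y)
        rw [inv_inv] at this
        exact this.symm
      rw [h1]
      exact Subgroup.zpow_mem _ hc' k
  · intro b _ hb
    have := (Subgroup.mem_normalizer_iff.1 hb y).1 (Subgroup.mem_zpowers y)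
    exact this

/-- confinement of the subnormalizer set -/
theorem subSet_le (x : G) (K : Subgroup G) (hx : x ∈ K)
    (hK : ∀ r : G, r * x * r⁻¹ ∈ K → r ∈ K) (g : G) (hg : g ∈ subSet x) : g ∈ K := by
  have hg' : ((Subgroup.zpowers x).subgroupOf
    (Subgroup.zpowers x ⊔ Subgroup.zpowers g)).IsSubnormal := hg
  set H := Subgroup.zpowers x ⊔ Subgroup.zpowers g with hH
  have hxH : x ∈ H := Subgroup.mem_sup_left (Subgroup.mem_zpowers x)
  have hgH : g ∈ H := Subgroup.mem_sup_right (Subgroup.mem_zpowers g)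
  have key : ∀ L : Subgroup H, L.IsSubnormal → (⟨x, hxH⟩ : H) ∈ L → L ≤ K.subgroupOf H →
      ⊤ ≤ K.subgroupOf H := by
    intro L hL
    induction hL with
    | top => intro _ h; exact h
    | step L M hle _ hN ih =>
      intro hxL hLK
      apply ih (hle hxL)
      intro r hr
      rw [Subgroup.mem_subgroupOf]
      apply hK
      have h1 := hN.conj_mem ⟨⟨x, hxH⟩, hle hxL⟩ (by rw [Subgroup.mem_subgroupOf]; exact hxL)
        ⟨r, hr⟩
      rw [Subgroup.mem_subgroupOf] at h1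
      have h2 := hLK h1
      rw [Subgroup.mem_subgroupOf] at h2
      exact h2
  have h3 := key _ hg' (by rw [Subgroup.mem_subgroupOf]; exact Subgroup.mem_zpowers x) (by
    intro z hz
    rw [Subgroup.mem_subgroupOf] at hz ⊢
    obtain ⟨k, hk⟩ := hz
    have h4 : (z : G) = x ^ k := hk.symm
    rw [h4]
    exact K.zpow_mem hx k)
  have h5 : (⟨g, hgH⟩ : H) ∈ K.subgroupOf H := h3 trivial
  rw [Subgroup.mem_subgroupOf] at h5
  exact h5

end gen

/-- the dihedral group of order twelve -/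
abbrev D : Type := DihedralGroup 6

/-- the wreath product of the dihedral group of order twelve with a group of order two -/
abbrev W : Type := Wr D

/-- the base group -/
def base : Subgroup W where
  carrier := {w | w.e = false}
  one_mem' := rfl
  mul_mem' := by
    rintro ⟨a, b, e⟩ ⟨c, d, f⟩ he hf
    change e = false at he
    change f = false at hf
    subst he hf
    simp
  inv_mem' := by
    rintro ⟨a, b, e⟩ he
    change e = false at he
    subst he
    simp

theorem base_normal : base.Normal := by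
  constructor
  rintro ⟨a, b, e⟩ he ⟨c, d, f⟩
  change e = false at he
  subst he
  cases f
  · change (_ : W).e = false
    simp
  · change (_ : W).e = false
    simp

/-- the element of order six -/
def x0 : W := ⟨DihedralGroup.sr 0, DihedralGroup.r 2, false⟩
def x2 : W := ⟨DihedralGroup.sr 0, 1, false⟩
def x3 : W := ⟨1, DihedralGroup.r 2, false⟩

/-- the subgroup `C(u) × D` of the base group -/
def K : Subgroup W where
  carrier := {w | w.e = false ∧ w.a * DihedralGroup.sr 0 = DihedralGroup.sr 0 * w.a}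
  one_mem' := ⟨rfl, by decide⟩
  mul_mem' := by
    rintro ⟨a, b, e⟩ ⟨c, d, f⟩ ⟨he, ha⟩ ⟨hf, hc⟩
    change e = false at he
    change f = false at hf
    change a * DihedralGroup.sr 0 = DihedralGroup.sr 0 * a at ha
    change c * DihedralGroup.sr 0 = DihedralGroup.sr 0 * c at hc
    subst he hf
    rw [Wr.mul_ff]
    refine ⟨rfl, ?_⟩
    change a * c * DihedralGroup.sr 0 = DihedralGroup.sr 0 * (a * c)
    rw [mul_assoc, hc, ← mul_assoc, ha, mul_assoc]
  inv_mem' := by
    rintro ⟨a, b, e⟩ ⟨he, ha⟩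
    change e = false at he
    change a * DihedralGroup.sr 0 = DihedralGroup.sr 0 * a at ha
    subst he
    rw [Wr.inv_ff]
    refine ⟨rfl, ?_⟩
    change a⁻¹ * DihedralGroup.sr 0 = DihedralGroup.sr 0 * a⁻¹
    have h : Commute a (DihedralGroup.sr 0) := ha
    exact h.inv_left

theorem d1 : ∀ a : D, a * DihedralGroup.sr 0 * a⁻¹ * DihedralGroup.sr 0 =
    DihedralGroup.sr 0 * (a * DihedralGroup.sr 0 * a⁻¹) →
    a * DihedralGroup.sr 0 = DihedralGroup.sr 0 * a := by decide

theorem d2 : ∀ a : D, a * DihedralGroup.r 2 * a⁻¹ * DihedralGroup.sr 0 ≠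
    DihedralGroup.sr 0 * (a * DihedralGroup.r 2 * a⁻¹) := by decide

theorem d3 : ∀ b : D, b * DihedralGroup.r 2 * b⁻¹ = (DihedralGroup.r 2 : D) ∨
      b * DihedralGroup.r 2 * b⁻¹ = (DihedralGroup.r 2 : D)⁻¹ := by decide

theorem K_conf (r : W) (h : r * x0 * r⁻¹ ∈ K) : r ∈ K := by
  rcases r with ⟨a, b, e⟩
  cases e
  · have h1 : (⟨a * DihedralGroup.sr 0 * a⁻¹, b * DihedralGroup.r 2 * b⁻¹, false⟩ : W) ∈ K := by
      simpa [x0] using h
    obtain ⟨_, h2⟩ := h1
    change a * DihedralGroup.sr 0 * a⁻¹ * DihedralGroup.sr 0 =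
      DihedralGroup.sr 0 * (a * DihedralGroup.sr 0 * a⁻¹) at h2
    refine ⟨rfl, ?_⟩
    exact d1 a h2
  · have h1 : (⟨a * DihedralGroup.r 2 * a⁻¹, b * DihedralGroup.sr 0 * b⁻¹, false⟩ : W) ∈ K := by
      simpa [x0] using h
    obtain ⟨_, h2⟩ := h1
    change a * DihedralGroup.r 2 * a⁻¹ * DihedralGroup.sr 0 =
      DihedralGroup.sr 0 * (a * DihedralGroup.r 2 * a⁻¹) at h2
    exact absurd h2 (d2 a)

theorem x0_mem_K : x0 ∈ K := ⟨rfl, by decide⟩

theorem K_norm (g : W) (hg : g ∈ K) :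
    g * x0 * g⁻¹ = x0 ∨ g * x0 * g⁻¹ = x0⁻¹ := by
  rcases g with ⟨a, b, e⟩
  obtain ⟨he, ha⟩ := hg
  change e = false at he
  change a * DihedralGroup.sr 0 = DihedralGroup.sr 0 * a at ha
  subst he
  have h1 : a * DihedralGroup.sr 0 * a⁻¹ = (DihedralGroup.sr 0 : D) := by
    rw [ha, mul_inv_cancel_right]
  rcases d3 b with h2 | h2
  · left; simp [x0, h1, h2]
  · right
    simp only [x0, Wr.inv_ff, Wr.mul_ff, h1, h2]
    congr 1

theorem subGrp_x0 : subGrp x0 = K := by
  apply le_antisymm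
  · rw [subGrp, Subgroup.closure_le]
    intro g hg
    exact subSet_le x0 K x0_mem_K K_conf g hg
  · intro g hg
    apply Subgroup.subset_closure
    have key : ∀ g ∈ K, g * x0 * g⁻¹ ∈ Subgroup.zpowers x0 := by
      intro g hg
      rcases K_norm g hg with h | h
      · rw [h]; exact Subgroup.mem_zpowers x0
      · rw [h]; exact Subgroup.inv_mem _ (Subgroup.mem_zpowers x0)
    apply mem_subSet_of_norm
    · exact key g hg
    · have := key g⁻¹ (K.inv_mem hg)
      rwa [inv_inv] at this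

/-- wreath elements with both coordinates in a subgroup -/
def wsub {M : Type} [Group M] (C : Subgroup M) : Subgroup (Wr M) where
  carrier := {w | w.a ∈ C ∧ w.b ∈ C}
  one_mem' := ⟨C.one_mem, C.one_mem⟩
  mul_mem' := by
    rintro ⟨a, b, e⟩ ⟨c, d, f⟩ ⟨ha, hb⟩ ⟨hc, hd⟩
    cases e
    · rw [Wr.mul_ff]; exact ⟨C.mul_mem ha hc, C.mul_mem hb hd⟩
    · rw [Wr.mul_tt]; exact ⟨C.mul_mem ha hd, C.mul_mem hb hc⟩
  inv_mem' := by
    rintro ⟨a, b, e⟩ ⟨ha, hb⟩
    cases e
    · rw [Wr.inv_ff]; exact ⟨C.inv_mem ha, C.inv_mem hb⟩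
    · rw [Wr.inv_tt]; exact ⟨C.inv_mem hb, C.inv_mem ha⟩

theorem swap_mem (y : W) (c : D) (hy : y = ⟨c, 1, false⟩ ∨ y = ⟨1, c, false⟩) :
    (⟨1, 1, true⟩ : W) ∈ subSet y := by
  apply mem_subSet_of y _ base (wsub (Subgroup.zpowers c)) base_normal
  · rcases hy with rfl | rfl <;> rfl
  · rcases hy with rfl | rfl
    · exact ⟨Subgroup.mem_zpowers c, Subgroup.one_mem _⟩
    · exact ⟨Subgroup.one_mem _, Subgroup.mem_zpowers c⟩
  · exact ⟨Subgroup.one_mem _, Subgroup.one_mem _⟩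
  · rintro ⟨a, b, e⟩ he ⟨ha, hb⟩
    change e = false at he
    subst he
    have h1 : ∀ z : D, z ∈ Subgroup.zpowers c → z * c * z⁻¹ = c := by
      rintro z ⟨k, rfl⟩
      exact mul_inv_eq_of_eq_mul ((Commute.refl c).zpow_left k).eq
    have h2 : (⟨a, b, false⟩ : W) * y * (⟨a, b, false⟩ : W)⁻¹ = y := by
      rcases hy with rfl | rfl
      · simp [h1 a ha]
      · simp [h1 b hb]
    rw [h2]
    exact Subgroup.mem_zpowers y

theorem comm_mem (y g : W) (h : g * y = y * g) : g ∈ subSet y := by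
  apply mem_subSet_of_norm
  · rw [h, mul_inv_cancel_right]; exact Subgroup.mem_zpowers y
  · have : g⁻¹ * y * g = y := by rw [mul_assoc, ← h, inv_mul_cancel_left]
    rw [this]; exact Subgroup.mem_zpowers y

theorem top_of (H : Subgroup W) (hs : (⟨1, 1, true⟩ : W) ∈ H)
    (h : (∀ m : D, (⟨1, m, false⟩ : W) ∈ H) ∨ (∀ m : D, (⟨m, 1, false⟩ : W) ∈ H)) :
    H = ⊤ := by
  have h1 : (∀ m : D, (⟨1, m, false⟩ : W) ∈ H) ∧ (∀ m : D, (⟨m, 1, false⟩ : W) ∈ H) := by
    rcases h with h | h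
    · refine ⟨h, fun m => ?_⟩
      have := H.mul_mem (H.mul_mem hs (h m)) hs
      simpa using this
    · refine ⟨fun m => ?_, h⟩
      have := H.mul_mem (H.mul_mem hs (h m)) hs
      simpa using this
  rw [eq_top_iff]
  rintro ⟨a, b, e⟩ _
  have h2 := H.mul_mem (h1.2 a) (h1.1 b)
  rw [Wr.mul_ff, mul_one, one_mul] at h2
  cases e
  · exact h2
  · have h3 := H.mul_mem h2 hs
    rw [Wr.mul_ff, mul_one, mul_one] at h3
    exact h3

theorem subGrp_x2 : subGrp x2 = ⊤ := by
  apply top_of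
  · exact Subgroup.subset_closure (swap_mem x2 (DihedralGroup.sr 0) (Or.inl rfl))
  · left
    intro m
    apply Subgroup.subset_closure
    apply comm_mem
    simp [x2]

theorem subGrp_x3 : subGrp x3 = ⊤ := by
  apply top_of
  · exact Subgroup.subset_closure (swap_mem x3 (DihedralGroup.r 2) (Or.inr rfl))
  · right
    intro m
    apply Subgroup.subset_closure
    apply comm_mem
    simp [x3]

theorem x0_pow6 : x0 ^ 6 = 1 := by decide
theorem x0_pow3 : x0 ^ 3 = x2 := by decide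
theorem x0_pow4 : x0 ^ 4 = x3 := by decide

theorem orderOf_x0 : orderOf x0 = 6 := by
  rw [orderOf_eq_iff (by norm_num)]
  refine ⟨x0_pow6, ?_⟩
  intro m hm hm0
  interval_cases m <;> decide

theorem pow_mem_range (y : W) (hy : y ∈ Subgroup.zpowers x0) : ∃ k : ℕ, k < 6 ∧ y = x0 ^ k := by
  obtain ⟨k, rfl⟩ := hy
  refine ⟨(k % 6).toNat, ?_, ?_⟩
  · omega
  · change x0 ^ k = _
    rw [← zpow_natCast, Int.toNat_of_nonneg (Int.emod_nonneg k (by norm_num))]
    have h : x0 ^ (k % (orderOf x0 : ℤ)) = x0 ^ k := zpow_mod_orderOf x0 k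
    rw [orderOf_x0] at h
    exact h.symm

theorem orderOf_x0_inv_pow (n : ℕ) (hn : n ≠ 0) : orderOf (x0 ^ n) = 6 / Nat.gcd 6 n := by
  rw [orderOf_pow' x0 hn, orderOf_x0]

theorem part_cases (p : ℕ) (hp : p.Prime) (hpx : p ∣ orderOf x0) (y : W) (hy : IsPart p x0 y) :
    (p = 2 ∧ y = x2) ∨ (p = 3 ∧ y = x3) := by
  obtain ⟨h1, ⟨j, hj⟩, h3⟩ := hy
  obtain ⟨k, hk, rfl⟩ := pow_mem_range y h1
  rw [orderOf_x0] at hpx
  have hp' : p = 2 ∨ p = 3 := by
    have : p ≤ 6 := Nat.le_of_dvd (by norm_num) hpx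
    interval_cases p <;> revert hp hpx <;> decide
  have hj' : 6 ∣ k * p ^ j := by
    rw [← orderOf_x0]
    apply orderOf_dvd_of_pow_eq_one
    rw [pow_mul]; exact hj
  have h4 : ∀ y' : W, y' = x0 * (x0 ^ k)⁻¹ → ¬ p ∣ orderOf y' := by
    rintro y' rfl; exact h3
  rcases hp' with rfl | rfl
  · left
    refine ⟨rfl, ?_⟩
    have h5 : 3 ∣ k := by
      have : 3 ∣ k * 2 ^ j := Dvd.dvd.trans (by norm_num) hj'
      exact (Nat.Coprime.dvd_of_dvd_mul_right (Nat.Coprime.pow_right j (by norm_num)) this)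
    have h6 : k = 0 ∨ k = 3 := by omega
    rcases h6 with rfl | rfl
    · exfalso
      apply h4 x0 (by simp)
      rw [orderOf_x0]; norm_num
    · exact x0_pow3
  · right
    refine ⟨rfl, ?_⟩
    have h5 : 2 ∣ k := by
      have : 2 ∣ k * 3 ^ j := Dvd.dvd.trans (by norm_num) hj'
      exact (Nat.Coprime.dvd_of_dvd_mul_right (Nat.Coprime.pow_right j (by norm_num)) this)
    have h6 : k = 0 ∨ k = 2 ∨ k = 4 := by omega
    rcases h6 with rfl | rfl | rfl
    · exfalso
      apply h4 x0 (by simp)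
      rw [orderOf_x0]; norm_num
    · exfalso
      apply h4 (x0 ^ 5) (by decide)
      rw [orderOf_x0_inv_pow 5 (by norm_num)]; norm_num
    · exact x0_pow4

end Pool.Agent.R677.SubN
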